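import Pool.Agent.PFD.StmtsD5b
import Pool.Agent.Helper66_WAT.FNW

/-!
# Squad PFD, row FND: the theorem for characters
-/

open scoped BigOperators

set_option autoImplicit false

noncomputable section

namespace Pool.Agent.PFD.H95

open Pool.Agent.Helper51_AWC Pool.Agent.Helper79_WRA Pool.Agent.PP Pool.Agent.PP.KF
open Pool.Agent.PP.K9 Pool.Agent.PP.K9.H97 Pool.Agent.PP.H75 Pool.Agent.PP.T3 Pool.Agent.PP.T2

attribute [local instance] Ideal.Quotient.field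

theorem fnd (hMny : MnyStmt) (hSpe : SpeStmt) (hF : T3.FltStmt) (hZ : T2.DzaStmt) :
    FndStmt := by
  intro ℓ hfact M _ hM G _ _ hc χ hχ D hD hDO hab θ hθ U₀ hU₀ hU₀n hU₀s hU₀f
  have hℓ := hfact.out
  have hGF : GoodF ℓ (FF M) := H50.fld ℓ hℓ M hM
  obtain ⟨e, he, h1, h2⟩ := H50.bid ℓ hℓ M hM G χ hχ
  have hn : (opCore ℓ G).Normal := H75.opCore_normal (A := G) ℓ
  obtain ⟨p, hp⟩ : ∃ p : G →* G ⧸ opCore ℓ G, p = QuotientGroup.mk' (opCore ℓ G) := ⟨_, rfl⟩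
  have hker : p.ker = opCore ℓ G := by
    rw [hp]
    exact QuotientGroup.ker_mk' _
  have hsurj : Function.Surjective p := by
    rw [hp]
    exact QuotientGroup.mk'_surjective (opCore ℓ G)
  have hkp : IsPGroup ℓ p.ker := by
    rw [hker]
    exact H75.opCore_isPGroup hℓ
  have hkc : p.ker ≤ Subgroup.center G := by
    rw [hker]
    exact hc
  have heq := H75.altSum_central H20.nls H20.brm H63.smt H94.nch
    (H50.dic H20.ibn H20.nls H20.brm) hℓ M hM hGF hsurj hker hkp hkc χ hχ e he h1 h2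
  obtain ⟨-, hZD, -, -⟩ := hZ ℓ M hM G hc χ hχ D hD (fun x hx y hy => by
    rw [hab x hx y hy, mul_inv_cancel_right, mul_inv_cancel]
    exact (opCore ℓ G).one_mem) e he h1 _ p hsurj hker
  obtain ⟨γ, hγ, hTg⟩ := hF ℓ M hM G χ hχ e he h1 D hD hab θ hθ
  have hmemT : ∀ t, t ∈ Tg D γ ↔ t ∈ Iner M D θ := by
    intro t
    rw [← hTg]
    rfl
  obtain ⟨U, W, hS⟩ := hSpe ℓ M hM G e D γ hγ U₀ hU₀ hU₀n
    (fun t ht => hU₀s t ((hmemT t).1 ht)) (fun t ht => hU₀f t ((hmemT t).1 ht))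
  have h0 : YY ℓ (⊤ : Subgroup (G ⧸ opCore ℓ G)) (push p e) = 0 :=
    hMny ℓ M hM G e D γ hγ U W hS (G ⧸ opCore ℓ G) p hsurj (by rw [hker]; exact hZD)
      (by rw [hker]; exact fun h => hDO h.symm)
  rw [h0, mul_zero] at heq
  rcases mul_eq_zero.1 heq with h | h
  · exact absurd h (by exact_mod_cast (Nat.card_pos (α := G)).ne')
  · exact h

end Pool.Agent.PFD.H95
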