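import Pool.Agent.PFD.StmtsD3

/-! Squad PFD, row FTS (D3, ord 313). -/

open scoped BigOperators

namespace Pool.Agent.PFD.H95

open Pool.Agent.PFD Pool.Agent.PFD.D3

theorem fts : FtsStmt := by
  classical
  intro F V E _ _ _ _ φ z hz
  have h1 : ∀ v : V, z.coeff v = z.coeff 1 := by
    intro v
    have h := congrArg (fun x : MonoidAlgebra F V => x.coeff v) (hz v)
    simp only [MonoidAlgebra.of_apply] at h
    rw [MonoidAlgebra.coeff_single_mul_apply, one_mul, inv_mul_cancel] at h
    exact h.symm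
  have h2 : z = z.coeff 1 • ∑ u : V, MonoidAlgebra.of F V u := by
    ext v
    rw [MonoidAlgebra.coeff_smul_apply, MonoidAlgebra.coeff_sum, Finset.sum_apply', h1 v]
    simp [MonoidAlgebra.of_apply, Finsupp.single_apply]
  refine ⟨⟨z.coeff 1, h2⟩, ?_⟩
  intro e
  rw [h2, map_smul, map_sum]
  congr 1
  have h3 : ∀ u : V, acV F φ e (MonoidAlgebra.of F V u) = MonoidAlgebra.of F V (φ e u) := by
    intro u
    rw [MonoidAlgebra.of_apply, MonoidAlgebra.of_apply, acV_single]
  simp_rw [h3]
  exact Equiv.sum_comp (φ e : V ≃* V).toEquiv (fun u => MonoidAlgebra.of F V u)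

end Pool.Agent.PFD.H95
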